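import Pool.Agent.Lib.MSNP.Defs

/-! From truth values to a permutation (module of `MSNP`). -/

namespace MSNP

open Equiv

theorem cw_key : ∀ (g : Fin 3 → Bool) (b x0 x1 : Bool) (r : Fin 3),
    xor (xor (g 0) (g 1)) (g 2) = true →
    ((xor b (g r) = tri true x0 x1 r) ↔ (b = tri false (xor x0 (g 0)) (xor x1 (g 1)) r)) := by
  decide

/-- The involution of `back`. -/
def phi {n m : ℕ} (F : Fin m → Fin 3 → Fin n) (v : Fin n → Bool) : El n m → El n m
  | .a i b => .a i (xor b (v i))
  | .c k r b => .c k r (xor b (v (F k r)))
  | .t k e s t => .t k e (xor s (v (F k e))) (xor t (v (F k (e + 1)) && s))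
  | .u k e x0 x1 => .u k e (if v (F k e) then x1 else x0)
      (if v (F k e) then x0 else xor x1 (v (F k (e + 1))))
  | .w k x0 x1 => .w k (xor x0 (v (F k 0))) (xor x1 (v (F k 1)))

/-- The involution `a i b ↦ a i (b + v i)`, `c k r b ↦ c k r (b + v (F k r))`,
`t k e s t ↦ t k e (s + p) (t + q s)`, `u k e x0 x1 ↦ if p then u k e x1 x0 else u k e x0 (x1 + q)`,
`w k x0 x1 ↦ w k (x0 + v (F k 0)) (x1 + v (F k 1))` with `p = v (F k e)`, `q = v (F k (e + 1))`
(machine test: it works exactly if in every clause exactly one position is true). -/
theorem back {n m : ℕ} (F : Fin m → Fin 3 → Fin n) (h : OneInThree F) :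
    ∃ s : Perm (El n m), (∀ x, num (s x) = num x) ∧ ∀ x y, core F (s x) y = core F (s y) x := by
  obtain ⟨v, hv⟩ := h
  have hnb : ∀ k e, ¬ (v (F k e) = true ∧ v (F k (e + 1)) = true) := by
    intro k e h
    have h2 : e = e + 1 := (hv k).unique h.1 h.2
    clear h
    revert e
    decide
  have hpar : ∀ k, xor (xor (v (F k 0)) (v (F k 1))) (v (F k 2)) = true := by
    intro k
    obtain ⟨r, hr, hu⟩ := hv k
    have h0 := hu 0
    have h1 := hu 1
    have h2 := hu 2
    fin_cases r
    · have a1 : v (F k 1) = false := by
        by_contra hc
        simp at hc
        have := h1 hc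
        simp at this
      have a2 : v (F k 2) = false := by
        by_contra hc
        simp at hc
        have := h2 hc
        simp at this
      simp at hr
      simp [hr, a1, a2]
    · have a1 : v (F k 0) = false := by
        by_contra hc
        simp at hc
        have := h0 hc
        simp at this
      have a2 : v (F k 2) = false := by
        by_contra hc
        simp at hc
        have := h2 hc
        simp at this
      simp at hr
      simp [hr, a1, a2]
    · have a1 : v (F k 0) = false := by
        by_contra hc
        simp at hc
        have := h0 hc
        simp at this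
      have a2 : v (F k 1) = false := by
        by_contra hc
        simp at hc
        have := h1 hc
        simp at this
      simp at hr
      simp [hr, a1, a2]
  have hinv : Function.Involutive (phi F v) := by
    intro x
    cases x with
    | a i b => simp [phi]
    | c k r b => simp [phi]
    | t k e s t =>
      have := hnb k e
      simp only [phi]
      revert this
      generalize v (F k e) = p
      generalize v (F k (e + 1)) = q
      intro this
      cases p <;> cases q <;> cases s <;> cases t <;> simp_all
    | u k e x0 x1 =>
      simp only [phi]
      generalize v (F k e) = p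
      generalize v (F k (e + 1)) = q
      cases p <;> cases q <;> cases x0 <;> cases x1 <;> simp
    | w k x0 x1 => simp [phi]
  refine ⟨hinv.toPerm, ?_, ?_⟩
  · intro x
    cases x <;> simp [phi, num]
  · intro x y
    simp only [Function.Involutive.coe_toPerm]
    cases x with
    | a i b =>
      cases y with
      | c k r b' =>
        simp only [phi, core, decide_eq_decide]
        constructor
        · rintro ⟨rfl, h⟩
          refine ⟨rfl, ?_⟩
          rw [← h]; simp
        · rintro ⟨rfl, h⟩
          refine ⟨rfl, ?_⟩
          rw [h]; simp
      | _ => rfl
    | c k r b =>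
      cases y with
      | a i b' =>
        simp only [phi, core, decide_eq_decide]
        constructor
        · rintro ⟨rfl, h⟩
          refine ⟨rfl, ?_⟩
          rw [h]; simp
        · rintro ⟨rfl, h⟩
          refine ⟨rfl, ?_⟩
          rw [← h]; simp
      | c => rfl
      | t k' e s t =>
        simp only [phi, core, decide_eq_decide]
        constructor
        · rintro ⟨rfl, rfl, h⟩
          refine ⟨rfl, rfl, ?_⟩
          rw [← h]; simp
        · rintro ⟨rfl, rfl, h⟩
          refine ⟨rfl, rfl, ?_⟩
          rw [h]; simp
      | u k' e x0 x1 =>
        simp only [phi, core, decide_eq_decide]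
        refine and_congr_right ?_
        rintro rfl
        refine and_congr_right ?_
        rintro rfl
        have := hnb k e
        revert this
        generalize v (F k e) = p
        generalize v (F k (e + 1)) = q
        revert p q b x0 x1
        decide
      | w k' x0 x1 =>
        simp only [phi, core, decide_eq_decide]
        constructor
        · rintro ⟨rfl, h⟩
          exact ⟨rfl, (cw_key (fun r => v (F k' r)) b x0 x1 r (hpar k')).1 h⟩
        · rintro ⟨rfl, h⟩
          exact ⟨rfl, (cw_key (fun r => v (F k' r)) b x0 x1 r (hpar k')).2 h⟩
    | t k e s t =>
      cases y with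
      | a => rfl
      | c k' r b =>
        simp only [phi, core, decide_eq_decide]
        constructor
        · rintro ⟨rfl, rfl, h⟩
          refine ⟨rfl, rfl, ?_⟩
          rw [h]; simp
        · rintro ⟨rfl, rfl, h⟩
          refine ⟨rfl, rfl, ?_⟩
          rw [← h]; simp
      | t k' e' s' t' =>
        simp only [phi, core, decide_eq_decide]
        have key : ∀ (p q s t s' t' : Bool), ¬ (p = true ∧ q = true) → (xor s p = s' ∧ xor t (q && s) = t') →
            (xor s' p = s ∧ xor t' (q && s') = t) := by decide
        constructor
        · rintro ⟨rfl, rfl, h⟩
          exact ⟨rfl, rfl, key _ _ _ _ _ _ (hnb k e) h⟩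
        · rintro ⟨rfl, rfl, h⟩
          exact ⟨rfl, rfl, key _ _ _ _ _ _ (hnb k' e') h⟩
      | u k' e' x0 x1 =>
        simp only [phi, core, decide_eq_decide]
        refine and_congr_right ?_
        rintro rfl
        refine and_congr_right ?_
        rintro rfl
        have := hnb k e
        revert this
        generalize v (F k e) = p
        generalize v (F k (e + 1)) = q
        revert p q s t x0 x1
        decide
      | w => rfl
    | u k e x0 x1 =>
      cases y with
      | c k' r b =>
        simp only [phi, core, decide_eq_decide]
        constructor
        · rintro ⟨rfl, rfl, h⟩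
          refine ⟨rfl, rfl, ?_⟩
          have := hnb k' e
          revert this h
          generalize v (F k' e) = p
          generalize v (F k' (e + 1)) = q
          revert p q b x0 x1
          decide
        · rintro ⟨rfl, rfl, h⟩
          refine ⟨rfl, rfl, ?_⟩
          have := hnb k' e
          revert this h
          generalize v (F k' e) = p
          generalize v (F k' (e + 1)) = q
          revert p q b x0 x1
          decide
      | t k' e' s t =>
        simp only [phi, core, decide_eq_decide]
        constructor
        · rintro ⟨rfl, rfl, h⟩
          refine ⟨rfl, rfl, ?_⟩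
          have := hnb k' e'
          revert this h
          generalize v (F k' e') = p
          generalize v (F k' (e' + 1)) = q
          revert p q s t x0 x1
          decide
        · rintro ⟨rfl, rfl, h⟩
          refine ⟨rfl, rfl, ?_⟩
          have := hnb k' e'
          revert this h
          generalize v (F k' e') = p
          generalize v (F k' (e' + 1)) = q
          revert p q s t x0 x1
          decide
      | _ => rfl
    | w k x0 x1 =>
      cases y with
      | c k' r b =>
        simp only [phi, core, decide_eq_decide]
        constructor
        · rintro ⟨rfl, h⟩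
          exact ⟨rfl, (cw_key (fun r => v (F k r)) b x0 x1 r (hpar k)).2 h⟩
        · rintro ⟨rfl, h⟩
          exact ⟨rfl, (cw_key (fun r => v (F k r)) b x0 x1 r (hpar k)).1 h⟩
      | _ => rfl

end MSNP
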