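import Mathlib

/-!
# Matrix symmetry is NP-hard: definitions

`MS A`: the rows of the `0/1` matrix `A` can be reordered to give a symmetric matrix. `mat F` is an
explicit matrix for an instance `F` of one-in-three satisfiability.
-/

namespace MSNP

open Equiv

/-- The rows of `A` can be reordered so that the matrix becomes symmetric. -/
def MS {V : Type} (A : V → V → Bool) : Prop := ∃ s : Perm V, ∀ x y, A (s x) y = A (s y) x

/-- One-in-three satisfiability (without negations): `n` variables, `m` clauses, the clause `k`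
consists of the variables `F k 0`, `F k 1`, `F k 2`; wanted: truth values such that in every clause
exactly one of the three positions is true. -/
def OneInThree {n m : ℕ} (F : Fin m → Fin 3 → Fin n) : Prop :=
  ∃ v : Fin n → Bool, ∀ k, ∃! r : Fin 3, v (F k r) = true

/-- The elements (rows and columns) of the typed instance. -/
inductive El (n m : ℕ) : Type
  | a (i : Fin n) (b : Bool)
  | c (k : Fin m) (r : Fin 3) (b : Bool)
  | t (k : Fin m) (e : Fin 3) (s t : Bool)
  | u (k : Fin m) (e : Fin 3) (x0 x1 : Bool)
  | w (k : Fin m) (x0 x1 : Bool)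
  deriving DecidableEq, Fintype

/-- The triple `x0, x1, x0 + x1 + z`. -/
def tri (z x0 x1 : Bool) (r : Fin 3) : Bool :=
  if r = 0 then x0 else if r = 1 then x1 else xor (xor x0 x1) z

/-- The typed matrix. -/
def core {n m : ℕ} (F : Fin m → Fin 3 → Fin n) : El n m → El n m → Bool
  | .a i b, .c k r b' => decide (i = F k r ∧ b = b')
  | .c k r b', .a i b => decide (i = F k r ∧ b = b')
  | .c k r b, .t k' e s _ => decide (k = k' ∧ r = e ∧ b = s)
  | .t k' e s _, .c k r b => decide (k = k' ∧ r = e ∧ b = s)
  | .c k r b, .u k' e x0 x1 => decide (k = k' ∧ r = e + 1 ∧ b = xor x0 x1)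
  | .u k' e x0 x1, .c k r b => decide (k = k' ∧ r = e + 1 ∧ b = xor x0 x1)
  | .t k e s t, .t k' e' s' t' => decide (k = k' ∧ e = e' ∧ s = s' ∧ t = t')
  | .t k e s t, .u k' e' x0 x1 => decide (k = k' ∧ e = e' ∧ t = if s then x1 else x0)
  | .u k' e' x0 x1, .t k e s t => decide (k = k' ∧ e = e' ∧ t = if s then x1 else x0)
  | .w k x0 x1, .c k' r b => decide (k = k' ∧ b = tri false x0 x1 r)
  | .c k' r b, .w k x0 x1 => decide (k = k' ∧ b = tri true x0 x1 r)
  | _, _ => false

/-- The number of the type of an element, from `1` to `n + 10 m`. -/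
def num {n m : ℕ} : El n m → ℕ
  | .a i _ => i + 1
  | .c k r _ => n + 3 * k + r + 1
  | .t k e _ _ => n + 3 * m + 3 * k + e + 1
  | .u k e _ _ => n + 6 * m + 3 * k + e + 1
  | .w k _ _ => n + 9 * m + k + 1

/-- Adding `|V| + 1` pads and the markers `0, …, K` to a matrix with types: two markers have the entry
`1`, a marker `i` and an element of type number `j` have the entry `1` iff `j ≤ i` (the pads have the
number `0`), other entries with a pad are `0`. -/
def ext {V : Type} (A : V → V → Bool) (K : ℕ) (ty : V → ℕ) :
    V ⊕ Option V ⊕ Fin (K + 1) → V ⊕ Option V ⊕ Fin (K + 1) → Bool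
  | .inl x, .inl y => A x y
  | .inl _, .inr (.inl _) => false
  | .inr (.inl _), .inl _ => false
  | .inr (.inl _), .inr (.inl _) => false
  | .inr (.inr _), .inr (.inr _) => true
  | .inl x, .inr (.inr i) => decide (ty x ≤ i)
  | .inr (.inr i), .inl y => decide (ty y ≤ i)
  | .inr (.inl _), .inr (.inr _) => true
  | .inr (.inr _), .inr (.inl _) => true

/-- The rows and columns of `mat F`. -/
abbrev Idx (n m : ℕ) : Type := El n m ⊕ Option (El n m) ⊕ Fin (n + 10 * m + 1)

/-- **The matrix of an instance.** -/
def mat {n m : ℕ} (F : Fin m → Fin 3 → Fin n) : Idx n m → Idx n m → Bool :=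
  ext (core F) (n + 10 * m) num

end MSNP
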